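import Pool.Agent.N319.LE.Stm

/-!
# Project NSP/LE, part KOP: the additional term on the Fourier side
-/

open MeasureTheory Set Filter Topology
open scoped ContDiff

set_option linter.unusedVariables false

namespace Pool.Agent.N878.LE

open Pool.Agent.H356R3.NS (C3 Sym RD nk pw dt SN fj ex)
open Pool.Agent.N980.NU (fco fs cst ip)
open H459R3.NS (V SPV)
open Pool.Agent.N977.S (LowE)
open Pool.Agent.N977.Q (wt Hn len un)
open Pool.Agent.N319.LE

/-! ### weights -/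

theorem pw_pos (k : Fq) : 0 < pw k := Pool.Agent.H356R3.NS.pw_pos k

theorem one_le_pw (k : Fq) : 1 ≤ pw k := Pool.Agent.H356R3.NS.one_le_pw k

theorem pw_neg (k : Fq) : pw (-k) = pw k := by
  unfold pw
  rw [Pool.Agent.H356R3.NS.l1_neg]

theorem N_le_pw (k : Fq) : (H459R3.NS.N k : ℝ) ≤ pw k := by
  have h1 : H459R3.NS.N k ≤ ∑ j, (k j).natAbs := by
    unfold H459R3.NS.N
    refine Finset.sup_le fun j _ => ?_
    exact Finset.single_le_sum (f := fun j => (k j).natAbs) (fun _ _ => Nat.zero_le _)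
      (Finset.mem_univ j)
  have h2 : ((∑ j, (k j).natAbs : ℕ) : ℝ) = Pool.Agent.H356R3.NS.l1 k := by
    unfold Pool.Agent.H356R3.NS.l1
    push_cast
    refine Finset.sum_congr rfl fun j _ => ?_
    rw [Nat.cast_natAbs]
    push_cast
    rfl
  have h3 : (H459R3.NS.N k : ℝ) ≤ ((∑ j, (k j).natAbs : ℕ) : ℝ) := by exact_mod_cast h1
  unfold pw
  linarith

theorem len_eq (k : Fq) : len k = nk k := rfl

theorem pw_le_len {k : Fq} (hk : k ≠ 0) : pw k ≤ 4 * len k := by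
  have h1 := Pool.Agent.N977.Q.one_le_len hk
  have h2 : ∀ j, |(k j : ℝ)| ≤ len k := by
    intro j
    unfold len
    apply Real.le_sqrt_of_sq_le
    rw [sq_abs]
    exact Finset.single_le_sum (f := fun j => (k j : ℝ) ^ 2) (fun _ _ => sq_nonneg _)
      (Finset.mem_univ j)
  unfold pw Pool.Agent.H356R3.NS.l1
  rw [Fin.sum_univ_three]
  linarith [h2 0, h2 1, h2 2]

theorem len_le_pw (k : Fq) : len k ≤ pw k := by
  rw [len_eq]
  have := Pool.Agent.H356R3.NS.nk_le_l1 k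
  unfold pw
  linarith

/-! ### rapidly decreasing sequences -/

theorem Rp.nn0 {x : Fq → C3} {m : ℕ} {C : ℝ} (hC : ∀ k, pw k ^ m * ‖x k‖ ≤ C) : 0 ≤ C :=
  (mul_nonneg (pow_nonneg (pw_pos 0).le m) (norm_nonneg _)).trans (hC 0)

theorem Rp.summ {x : Fq → C3} (hx : Rp x) (m : ℕ) : Summable fun k => pw k ^ m * ‖x k‖ := by
  obtain ⟨C, hC⟩ := hx (m + 4)
  have hC0 := Rp.nn0 hC
  have h1 : Summable fun k : Fq => C * ((if k = 0 then (1 : ℝ) else 0) +
      (if k = 0 then (0 : ℝ) else 1 / (H459R3.NS.N k : ℝ) ^ 4)) := by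
    refine (Summable.add ?_ H459R3.NS.summable_N4).mul_left C
    refine summable_of_ne_finset_zero (s := {0}) fun k hk => ?_
    rw [if_neg (by simpa using hk)]
  refine h1.of_nonneg_of_le (fun k => mul_nonneg (pow_nonneg (pw_pos k).le m) (norm_nonneg _))
    fun k => ?_
  have h2 := hC k
  rw [pow_add, mul_right_comm] at h2
  have hp := one_le_pw k
  have h0 : 0 ≤ pw k ^ m * ‖x k‖ := mul_nonneg (pow_nonneg (pw_pos k).le m) (norm_nonneg _)
  by_cases hk : k = 0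
  · rw [if_pos hk, if_pos hk, add_zero, mul_one]
    refine le_trans ?_ h2
    have : 1 ≤ pw k ^ 4 := one_le_pow₀ hp
    nlinarith
  · rw [if_neg hk, if_neg hk, zero_add, mul_one_div]
    have hN := Pool.Agent.N977.Q.one_le_N hk
    have hN4 : (0 : ℝ) < (H459R3.NS.N k : ℝ) ^ 4 := by positivity
    rw [le_div_iff₀ hN4]
    refine le_trans ?_ h2
    refine mul_le_mul_of_nonneg_left ?_ h0
    exact pow_le_pow_left₀ (by positivity) (N_le_pw k) 4

theorem Rp.rd {x : Fq → C3} (hx : Rp x) (i : Fin 3) : RD (cst fun k => x k i) := by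
  intro m
  refine ⟨_, Rp.summ hx m, fun k t => ?_⟩
  exact mul_le_mul_of_nonneg_left (norm_le_pi_norm _ i) (pow_nonneg (pw_pos k).le m)

theorem Rp.sn {x : Fq → C3} (hx : Rp x) : SN x := by
  have := Rp.summ hx 0
  simp only [pow_zero, one_mul] at this
  exact this

theorem Rp.nns {x : Fq → C3} (hx : Rp x) (m : ℕ) : Summable fun k => (pw k ^ m * ‖x k‖) ^ 2 :=
  Pool.Agent.N977.Q.sq_summable (Rp.summ hx m) fun k =>
    mul_nonneg (pow_nonneg (pw_pos k).le m) (norm_nonneg _)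

theorem nn_nonneg (m : ℕ) (x : Fq → C3) : 0 ≤ nn m x := tsum_nonneg fun _ => sq_nonneg _

theorem Rp.add {x y : Fq → C3} (hx : Rp x) (hy : Rp y) : Rp (x + y) := by
  intro m
  obtain ⟨C, hC⟩ := hx m
  obtain ⟨D, hD⟩ := hy m
  refine ⟨C + D, fun k => ?_⟩
  have h := mul_le_mul_of_nonneg_left (norm_add_le (x k) (y k)) (pow_nonneg (pw_pos k).le m)
  rw [mul_add] at h
  exact h.trans (add_le_add (hC k) (hD k))

theorem Rp.smul {x : Fq → C3} (hx : Rp x) (r : ℝ) : Rp (r • x) := by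
  intro m
  obtain ⟨C, hC⟩ := hx m
  refine ⟨|r| * C, fun k => ?_⟩
  rw [Pi.smul_apply, norm_smul, Real.norm_eq_abs, mul_left_comm]
  exact mul_le_mul_of_nonneg_left (hC k) (abs_nonneg r)

/-! ### symmetrization -/

theorem norm_sy_le (x : Fq → C3) (k : Fq) : ‖sy x k‖ ≤ (‖x k‖ + ‖x (-k)‖) / 2 := by
  rw [pi_norm_le_iff_of_nonneg (by positivity)]
  intro i
  unfold sy
  rw [norm_div, Complex.norm_ofNat]
  refine div_le_div_of_nonneg_right ((norm_add_le _ _).trans ?_) (by norm_num)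
  rw [norm_star]
  exact add_le_add (norm_le_pi_norm _ i) (norm_le_pi_norm _ i)

theorem Sym_sy (x : Fq → C3) : Sym (sy x) := by
  intro k i
  unfold sy
  rw [neg_neg, star_div₀, star_add, star_star, add_comm]
  congr 1
  simp

theorem Rp.sy {x : Fq → C3} (hx : Rp x) : Rp (sy x) := by
  intro m
  obtain ⟨C, hC⟩ := hx m
  refine ⟨C, fun k => ?_⟩
  have h1 := mul_le_mul_of_nonneg_left (norm_sy_le x k) (pow_nonneg (pw_pos k).le m)
  have h2 := hC k
  have h3 := hC (-k)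
  rw [pw_neg] at h3
  refine h1.trans ?_
  calc pw k ^ m * ((‖x k‖ + ‖x (-k)‖) / 2) = (pw k ^ m * ‖x k‖ + pw k ^ m * ‖x (-k)‖) / 2 := by ring
    _ ≤ C := by linarith

theorem nn_sy_le {x : Fq → C3} (hx : Rp x) (m : ℕ) : nn m (sy x) ≤ nn m x := by
  have h1 := Rp.nns hx m
  have h2 : Summable fun k => (pw (-k) ^ m * ‖x (-k)‖) ^ 2 := (Equiv.neg Fq).summable_iff.2 h1
  have h3 : ∑' k, (pw (-k) ^ m * ‖x (-k)‖) ^ 2 = nn m x := (Equiv.neg Fq).tsum_eq
    (fun k => (pw k ^ m * ‖x k‖) ^ 2)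
  have h4 : nn m x = ∑' k, ((pw k ^ m * ‖x k‖) ^ 2 + (pw (-k) ^ m * ‖x (-k)‖) ^ 2) / 2 := by
    rw [tsum_div_const, Summable.tsum_add h1 h2, h3]
    unfold nn
    ring
  rw [h4]
  refine (Rp.nns (Rp.sy hx) m).tsum_le_tsum (fun k => ?_) ((h1.add h2).div_const 2)
  have h5 := mul_le_mul_of_nonneg_left (norm_sy_le x k) (pow_nonneg (pw_pos k).le m)
  have h6 : 0 ≤ pw k ^ m * ‖sy x k‖ := mul_nonneg (pow_nonneg (pw_pos k).le m) (norm_nonneg _)
  rw [pw_neg]
  have h7 := pow_le_pow_left₀ h6 h5 2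
  refine h7.trans ?_
  nlinarith [sq_nonneg (pw k ^ m * ‖x k‖ - pw k ^ m * ‖x (-k)‖)]

/-! ### the fields -/

theorem summ_term {x : Fq → C3} (hx : Rp x) (i : Fin 3) (X : V) :
    Summable fun k => x k i * ex k X := by
  refine Summable.of_norm_bounded (Rp.sn hx) fun k => ?_
  rw [norm_mul, Pool.Agent.H356R3.NS.norm_ex, mul_one]
  exact norm_le_pi_norm _ i

theorem fs_sy {x : Fq → C3} (hx : Rp x) (i : Fin 3) (X : V) :
    (fs (fun k => sy x k i) X).re = (fs (fun k => x k i) X).re := by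
  have h1 := summ_term hx i X
  have h2 : HasSum (fun k => star (x (-k) i) * ex k X) (star (fs (fun k => x k i) X)) := by
    have h3 : HasSum (fun k => star (x k i * ex k X)) (star (fs (fun k => x k i) X)) :=
      h1.hasSum.star
    have h4 := (Equiv.neg Fq).hasSum_iff.2 h3
    refine h4.congr_fun ?_
    intro k
    show star (x (-k) i) * ex k X = star (x (-k) i * ex (-k) X)
    rw [star_mul', Pool.Agent.H356R3.NS.ex_neg, star_star]
  have h5 : fs (fun k => sy x k i) X = (fs (fun k => x k i) X + star (fs (fun k => x k i) X)) / 2 := by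
    have h6 := ((h1.hasSum).add h2).div_const 2
    unfold fs
    refine Eq.trans ?_ h6.tsum_eq
    refine tsum_congr fun k => ?_
    unfold sy
    ring
  rw [h5, Complex.star_def, Complex.add_conj]
  simp

theorem Fd_eq {x : Fq → C3} (hx : Rp x) : Fd x = Fd (sy x) := by
  funext X i
  exact (fs_sy hx i X).symm

theorem Fd_spv {x : Fq → C3} (hx : Rp x) : SPV (Fd x) := by
  refine ⟨contDiff_pi.2 fun i => Pool.Agent.N980.NU.fs_smooth (Rp.rd hx i), fun j X => ?_⟩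
  funext i
  unfold Fd
  rw [Pool.Agent.N980.NU.fs_per]

theorem fco_Fd {x : Fq → C3} (hx : Rp x) : fco (Fd x) = sy x := by
  rw [Fd_eq hx]
  funext k i
  exact Pool.Agent.N980.NU.fco_fs (Rp.sn (Rp.sy hx)) (Sym_sy x) k i

theorem un_Fd {x : Fq → C3} (hx : Rp x) (k : Fq) : un (Fd x) k ^ 2 = ∑ i, ‖sy x k i‖ ^ 2 := by
  rw [Pool.Agent.N977.Q.un_sq]
  refine Finset.sum_congr rfl fun i _ => ?_
  rw [← Pool.Agent.N980.NU.fco_fr, fco_Fd hx]

theorem sum_sq_le (v : C3) : ∑ i, ‖v i‖ ^ 2 ≤ 3 * ‖v‖ ^ 2 := by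
  calc ∑ i, ‖v i‖ ^ 2 ≤ ∑ i : Fin 3, ‖v‖ ^ 2 :=
        Finset.sum_le_sum fun i _ => pow_le_pow_left₀ (norm_nonneg _) (norm_le_pi_norm v i) 2
    _ = 3 * ‖v‖ ^ 2 := by simp

theorem norm_sq_le (v : C3) : ‖v‖ ^ 2 ≤ ∑ i, ‖v i‖ ^ 2 := by
  have h0 : 0 ≤ ∑ i, ‖v i‖ ^ 2 := Finset.sum_nonneg fun _ _ => sq_nonneg _
  have h : ‖v‖ ≤ √(∑ i, ‖v i‖ ^ 2) := by
    rw [pi_norm_le_iff_of_nonneg (Real.sqrt_nonneg _)]
    intro i
    apply Real.le_sqrt_of_sq_le
    exact Finset.single_le_sum (f := fun i => ‖v i‖ ^ 2) (fun _ _ => sq_nonneg _)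
      (Finset.mem_univ i)
  calc ‖v‖ ^ 2 ≤ √(∑ i, ‖v i‖ ^ 2) ^ 2 := pow_le_pow_left₀ (norm_nonneg _) h 2
    _ = _ := Real.sq_sqrt h0

/-- bound of the norms of the fields -/
theorem Hn_Fd_le {x : Fq → C3} (hx : Rp x) {s a C : ℝ} {m : ℕ} (hC : 0 ≤ C)
    (h : ∀ k, wt s a k ≤ C * pw k ^ m) : Hn s a (Fd x) ^ 2 ≤ 3 * C ^ 2 * nn m x := by
  rw [Pool.Agent.N977.Q.Hn_sq_un]
  have h1 := Pool.Agent.N977.Q.wun_summable (Fd_spv hx) s a
  refine le_trans ?_ (mul_le_mul_of_nonneg_left (nn_sy_le hx m) (by positivity))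
  unfold nn
  rw [← tsum_mul_left]
  refine h1.tsum_le_tsum (fun k => ?_) ((Rp.nns (Rp.sy hx) m).mul_left _)
  rw [mul_pow, un_Fd hx]
  have h2 : wt s a k ^ 2 ≤ (C * pw k ^ m) ^ 2 :=
    pow_le_pow_left₀ (Pool.Agent.N977.Q.wt_nonneg _ _ _) (h k) 2
  have h3 := sum_sq_le (sy x k)
  calc wt s a k ^ 2 * ∑ i, ‖sy x k i‖ ^ 2 ≤ (C * pw k ^ m) ^ 2 * (3 * ‖sy x k‖ ^ 2) :=
        mul_le_mul h2 h3 (Finset.sum_nonneg fun _ _ => sq_nonneg _) (by positivity)
    _ = _ := by ring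

/-! ### bilinearity -/

theorem fs_add {x y : Fq → C3} (hx : Rp x) (hy : Rp y) (i : Fin 3) (X : V) :
    fs (fun k => (x + y) k i) X = fs (fun k => x k i) X + fs (fun k => y k i) X := by
  unfold fs
  rw [← Summable.tsum_add (summ_term hx i X) (summ_term hy i X)]
  refine tsum_congr fun k => ?_
  show (x k i + y k i) * ex k X = _
  ring

theorem Fd_add {x y : Fq → C3} (hx : Rp x) (hy : Rp y) :
    Fd (x + y) = fun X => Fd x X + Fd y X := by
  funext X i
  show (fs (fun k => (x + y) k i) X).re = (fs (fun k => x k i) X).re + (fs (fun k => y k i) X).re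
  rw [fs_add hx hy, Complex.add_re]

theorem Fd_smul (r : ℝ) (x : Fq → C3) : Fd (r • x) = fun X => r • Fd x X := by
  funext X i
  show (fs (fun k => (r • x) k i) X).re = r * (fs (fun k => x k i) X).re
  have : fs (fun k => (r • x) k i) X = (r : ℂ) * fs (fun k => x k i) X := by
    unfold fs
    rw [← tsum_mul_left]
    refine tsum_congr fun k => ?_
    show (r • x) k i * ex k X = (r : ℂ) * (x k i * ex k X)
    rw [Pi.smul_apply, Pi.smul_apply, Complex.real_smul]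
    ring
  rw [this, Complex.re_ofReal_mul]

theorem fco_add {f g : V → V} (hf : Continuous f) (hg : Continuous g) :
    fco (fun X => f X + g X) = fco f + fco g := by
  funext k i
  show fco (fun X => f X + g X) k i = fco f k i + fco g k i
  rw [Pool.Agent.N980.NU.fco_fr, Pool.Agent.N980.NU.fco_fr, Pool.Agent.N980.NU.fco_fr]
  exact Pool.Agent.N977.Q.fr_add ((continuous_apply i).comp hf) ((continuous_apply i).comp hg) k

theorem fco_smul (r : ℝ) (f : V → V) : fco (fun X => r • f X) = r • fco f := by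
  funext k i
  rw [Pi.smul_apply, Pi.smul_apply, Complex.real_smul]
  rw [Pool.Agent.N980.NU.fco_eq_ex, Pool.Agent.N980.NU.fco_eq_ex, ← integral_const_mul]
  congr 1
  funext X
  show ((r * f X i : ℝ) : ℂ) * _ = _
  push_cast
  ring

/-! ### the test -/

theorem ip_eq {f w : V → V} (hf : Continuous f) (hw : Continuous w) :
    ∑ i, ∫ x in H459R3.NS.cube, f x i * w x i = ip w f := by
  unfold ip
  rw [integral_finsetSum]
  · refine Finset.sum_congr rfl fun i _ => ?_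
    show ∫ x in H459R3.NS.cube, f x i * w x i = ∫ x in H459R3.NS.cube, w x i * f x i
    congr 1
    funext x
    ring
  · intro i _
    exact Pool.Agent.N980.NU.int_on_cube
      (((continuous_apply i).comp hw).mul ((continuous_apply i).comp hf))

theorem Rp_fin (F : Finset Fq) {W : Fq → C3} (h : ∀ k, k ∉ F → W k = 0) : Rp W := by
  intro m
  refine ⟨∑ k ∈ F, pw k ^ m * ‖W k‖, fun k => ?_⟩
  by_cases hk : k ∈ F
  · exact Finset.single_le_sum (f := fun k => pw k ^ m * ‖W k‖)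
      (fun k _ => mul_nonneg (pow_nonneg (pw_pos k).le m) (norm_nonneg _)) hk
  · rw [h k hk, norm_zero, mul_zero]
    exact Finset.sum_nonneg fun k _ => mul_nonneg (pow_nonneg (pw_pos k).le m) (norm_nonneg _)

theorem sy_of_Sym {W : Fq → C3} (h : Sym W) : sy W = W := by
  funext k i
  unfold sy
  rw [h k i, star_star]
  ring

open Classical in
/-- **The test.** -/
theorem test {p δ : ℝ} {K : (V → V) → (V → V) → V → V} (hK : LowE 2 p δ K)
    {s₁ s₂ s₃ a₁ a₂ a₃ : ℝ} (hs : s₁ + s₂ + s₃ = 2) (h1 : 0 ≤ a₁) (h2 : 0 ≤ a₂) (h3 : 0 ≤ a₃)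
    (ha : a₁ + a₂ + a₃ = p) {F : Finset Fq} (hF : ∀ k ∈ F, -k ∈ F) {g : Fq → ℝ}
    (hg : ∀ k, 0 ≤ g k) (hgs : ∀ k, g (-k) = g k) {A : ℝ} (hA0 : 0 ≤ A)
    (hA : ∀ k ∈ F, wt s₃ a₃ k ^ 2 * g k ≤ A ^ 2) {x y : Fq → C3} (hx : Rp x) (hy : Rp y) :
    ∑ k ∈ F, g k * ∑ i, ‖NK K x y k i‖ ^ 2 ≤
      (|δ| * 5 ^ (|s₁| + |s₂| + |s₃|) * A) ^ 2 * (Hn s₁ a₁ (Fd x) ^ 2 * Hn s₂ a₂ (Fd y) ^ 2) := by
  set f := K (Fd x) (Fd y) with hf
  have hfs : SPV f := hK.smooth _ _ (Fd_spv hx) (Fd_spv hy)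
  have hfc : Continuous f := hfs.1.continuous
  set n : Fq → C3 := NK K x y with hn
  have hns : Sym n := Pool.Agent.N980.NU.fco_sym f
  set W : Fq → C3 := fun k => if k ∈ F then g k • n k else 0 with hW
  have hF' : ∀ k, -k ∈ F ↔ k ∈ F := fun k =>
    ⟨fun h => by have := hF _ h; rwa [neg_neg] at this, fun h => hF k h⟩
  have hWs : Sym W := by
    intro k i
    simp only [hW, hF' k]
    split_ifs
    · rw [Pi.smul_apply, Pi.smul_apply, hgs, hns k i, Complex.real_smul, Complex.real_smul,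
        star_mul', Complex.star_def, Complex.conj_ofReal]
    · simp
  have hWr : Rp W := Rp_fin F fun k hk => if_neg hk
  have hWn : ∀ k ∈ F, ∀ i, ‖W k i‖ ^ 2 = g k ^ 2 * ‖n k i‖ ^ 2 := by
    intro k hk i
    simp only [hW, if_pos hk]
    rw [Pi.smul_apply, norm_smul, Real.norm_eq_abs, mul_pow, sq_abs]
  set S := ∑ k ∈ F, g k * ∑ i, ‖n k i‖ ^ 2 with hS
  have hS0 : 0 ≤ S := Finset.sum_nonneg fun k _ =>
    mul_nonneg (hg k) (Finset.sum_nonneg fun _ _ => sq_nonneg _)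
  -- the pairing
  have hpair : ∑ i, ∫ X in H459R3.NS.cube, K (Fd x) (Fd y) X i * Fd W X i = S := by
    rw [ip_eq hfc (Fd_spv hWr).1.continuous]
    have h4 := Pool.Agent.N980.NU.ip_fs (Rp.sn hWr) hWs hfc
    have h5 : ip (Fd W) f = (∑' k, ∑ i, W k i * star (fco f k i)).re := h4
    rw [h5, tsum_eq_sum (s := F)]
    · have h6 : ∑ k ∈ F, ∑ i, W k i * star (fco f k i) = ((S : ℝ) : ℂ) := by
        rw [hS]
        push_cast
        refine Finset.sum_congr rfl fun k hk => ?_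
        rw [Finset.mul_sum]
        refine Finset.sum_congr rfl fun i _ => ?_
        simp only [hW, if_pos hk]
        rw [Pi.smul_apply, Complex.real_smul, mul_assoc]
        congr 1
        show n k i * (starRingEnd ℂ) (n k i) = _
        rw [Complex.mul_conj, Complex.normSq_eq_norm_sq]
        push_cast
        rfl
      rw [h6, Complex.ofReal_re]
    · intro k hk
      simp only [hW, if_neg hk, Pi.zero_apply, zero_mul, Finset.sum_const_zero]
  -- the norm of the test field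
  have hHn : Hn s₃ a₃ (Fd W) ^ 2 ≤ A ^ 2 * S := by
    rw [Pool.Agent.N977.Q.Hn_sq_un, tsum_eq_sum (s := F)]
    · rw [hS, Finset.mul_sum]
      refine Finset.sum_le_sum fun k hk => ?_
      rw [mul_pow, un_Fd hWr, sy_of_Sym hWs, Finset.sum_congr rfl fun i _ => hWn k hk i,
        ← Finset.mul_sum]
      have h5 := hA k hk
      have h6 : 0 ≤ g k * ∑ i, ‖n k i‖ ^ 2 :=
        mul_nonneg (hg k) (Finset.sum_nonneg fun _ _ => sq_nonneg _)
      calc wt s₃ a₃ k ^ 2 * (g k ^ 2 * ∑ i, ‖n k i‖ ^ 2)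
          = (wt s₃ a₃ k ^ 2 * g k) * (g k * ∑ i, ‖n k i‖ ^ 2) := by ring
        _ ≤ A ^ 2 * (g k * ∑ i, ‖n k i‖ ^ 2) := mul_le_mul_of_nonneg_right h5 h6
    · intro k hk
      rw [mul_pow, un_Fd hWr, sy_of_Sym hWs]
      simp [hW, if_neg hk]
  have hHn' : Hn s₃ a₃ (Fd W) ≤ A * √S := by
    have h5 : Hn s₃ a₃ (Fd W) ^ 2 ≤ (A * √S) ^ 2 := by
      rw [mul_pow, Real.sq_sqrt hS0]; exact hHn
    exact (sq_le_sq₀ (Pool.Agent.N977.Q.Hn_nonneg _ _ _) (by positivity)).1 h5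
  have hb := hK.bound (Fd x) (Fd y) (Fd W) (Fd_spv hx) (Fd_spv hy) (Fd_spv hWr) s₁ s₂ s₃ a₁ a₂ a₃
    hs h1 h2 h3 ha
  rw [hpair, abs_of_nonneg hS0] at hb
  set E : ℝ := 5 ^ (|s₁| + |s₂| + |s₃|) with hE
  have hE0 : 0 < E := by rw [hE]; positivity
  set U := Hn s₁ a₁ (Fd x) with hU
  set Y := Hn s₂ a₂ (Fd y) with hY
  have hU0 : 0 ≤ U := Pool.Agent.N977.Q.Hn_nonneg _ _ _
  have hY0 : 0 ≤ Y := Pool.Agent.N977.Q.Hn_nonneg _ _ _
  have hZ0 : 0 ≤ Hn s₃ a₃ (Fd W) := Pool.Agent.N977.Q.Hn_nonneg _ _ _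
  have hmain : S ≤ (|δ| * E * A * (U * Y)) * √S := by
    calc S ≤ δ * E * (U * Y * Hn s₃ a₃ (Fd W)) := hb
      _ ≤ |δ| * E * (U * Y * Hn s₃ a₃ (Fd W)) := by
          refine mul_le_mul_of_nonneg_right ?_ (by positivity)
          exact mul_le_mul_of_nonneg_right (le_abs_self δ) hE0.le
      _ ≤ |δ| * E * (U * Y * (A * √S)) := by
          refine mul_le_mul_of_nonneg_left ?_ (by positivity)
          exact mul_le_mul_of_nonneg_left hHn' (by positivity)
      _ = _ := by ring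
  have hq : √S ≤ |δ| * E * A * (U * Y) := by
    rcases eq_or_lt_of_le (Real.sqrt_nonneg S) with h0 | h0
    · rw [← h0]; positivity
    · have h5 : √S * √S ≤ (|δ| * E * A * (U * Y)) * √S := by
        rw [Real.mul_self_sqrt hS0]; exact hmain
      exact le_of_mul_le_mul_right h5 h0
  calc S = √S ^ 2 := (Real.sq_sqrt hS0).symm
    _ ≤ (|δ| * E * A * (U * Y)) ^ 2 := pow_le_pow_left₀ (Real.sqrt_nonneg _) hq 2
    _ = _ := by ring

/-! ### bounds of the weights -/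

theorem wt_nat (m : ℕ) (k : Fq) : wt m 0 k ≤ 1 * pw k ^ m := by
  rw [one_mul]
  unfold wt
  split_ifs with hk
  · exact pow_nonneg (pw_pos k).le m
  · rw [Real.rpow_zero, mul_one, Real.rpow_natCast]
    exact pow_le_pow_left₀ (Pool.Agent.N977.Q.len_nonneg k) (len_le_pw k) m

theorem log_pow_le {p t : ℝ} (hp : 0 ≤ p) (ht : 1 ≤ t) :
    Real.log (2 + t) ^ p ≤ 3 * (p + 1) ^ p * t := by
  have h0 : 0 ≤ Real.log (2 + t) := Real.log_nonneg (by linarith)
  have he : 0 < 1 / (p + 1) := by positivity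
  have h1 : Real.log (2 + t) ≤ (2 + t) ^ (1 / (p + 1)) / (1 / (p + 1)) :=
    Real.log_le_rpow_div (by linarith) he
  have h2 : (2 + t) ^ (1 / (p + 1)) / (1 / (p + 1)) = (p + 1) * (2 + t) ^ (1 / (p + 1)) := by
    field_simp
  rw [h2] at h1
  calc Real.log (2 + t) ^ p ≤ ((p + 1) * (2 + t) ^ (1 / (p + 1))) ^ p :=
        Real.rpow_le_rpow h0 h1 hp
    _ = (p + 1) ^ p * (2 + t) ^ (1 / (p + 1) * p) := by
        rw [Real.mul_rpow (by positivity) (by positivity), ← Real.rpow_mul (by linarith)]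
    _ ≤ (p + 1) ^ p * (2 + t) ^ (1 : ℝ) := by
        refine mul_le_mul_of_nonneg_left ?_ (by positivity)
        refine Real.rpow_le_rpow_of_exponent_le (by linarith) ?_
        rw [div_mul_eq_mul_div, one_mul, div_le_one (by positivity)]
        linarith
    _ ≤ (p + 1) ^ p * (3 * t) := by
        rw [Real.rpow_one]
        refine mul_le_mul_of_nonneg_left ?_ (by positivity)
        linarith
    _ = _ := by ring

theorem wt_one (p : ℝ) (hp : 0 ≤ p) (k : Fq) : wt 1 p k ≤ 3 * (p + 1) ^ p * pw k ^ 3 := by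
  unfold wt
  have h0 := pw_pos k
  have h1 := one_le_pw k
  have h2 : (0 : ℝ) ≤ (p + 1) ^ p := by positivity
  split_ifs with hk
  · positivity
  · have h3 := Pool.Agent.N977.Q.one_le_len hk
    have h4 := log_pow_le hp h3
    have h5 := len_le_pw k
    rw [Real.rpow_one]
    calc len k * Real.log (2 + len k) ^ p ≤ len k * (3 * (p + 1) ^ p * len k) :=
          mul_le_mul_of_nonneg_left h4 (by linarith)
      _ = 3 * (p + 1) ^ p * (len k * len k) := by ring
      _ ≤ 3 * (p + 1) ^ p * (pw k * pw k) := by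
          refine mul_le_mul_of_nonneg_left ?_ (by positivity)
          exact mul_le_mul h5 h5 (by linarith) h0.le
      _ ≤ 3 * (p + 1) ^ p * pw k ^ 3 := by
          refine mul_le_mul_of_nonneg_left ?_ (by positivity)
          nlinarith [mul_pos h0 h0]

theorem wt_est (M : ℕ) (k : Fq) :
    wt (1 - M) 0 k ^ 2 * (pw k ^ (2 * M) / (1 + nk k ^ 2)) ≤ (4 ^ M) ^ 2 := by
  unfold wt
  split_ifs with hk
  · rw [zero_pow two_ne_zero, zero_mul]; positivity
  · have h1 := Pool.Agent.N977.Q.one_le_len hk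
    have h0 : 0 < len k := by linarith
    have hlM : 0 < len k ^ M := pow_pos h0 M
    rw [Real.rpow_zero, mul_one, Real.rpow_sub h0, Real.rpow_one, Real.rpow_natCast, ← len_eq]
    have h2 : pw k ^ (2 * M) ≤ (4 * len k) ^ (2 * M) :=
      pow_le_pow_left₀ (pw_pos k).le (pw_le_len hk) _
    have h3 : (4 * len k) ^ (2 * M) = (4 ^ M) ^ 2 * (len k ^ M) ^ 2 := by
      rw [mul_pow, ← pow_mul, ← pow_mul, mul_comm M 2]
    rw [h3] at h2
    rw [div_pow, div_mul_div_comm, div_le_iff₀ (by positivity)]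
    calc len k ^ 2 * pw k ^ (2 * M) ≤ len k ^ 2 * ((4 ^ M) ^ 2 * (len k ^ M) ^ 2) :=
          mul_le_mul_of_nonneg_left h2 (by positivity)
      _ = (4 ^ M) ^ 2 * ((len k ^ M) ^ 2 * (len k ^ 2)) := by ring
      _ ≤ (4 ^ M) ^ 2 * ((len k ^ M) ^ 2 * (1 + len k ^ 2)) := by
          refine mul_le_mul_of_nonneg_left ?_ (by positivity)
          refine mul_le_mul_of_nonneg_left ?_ (by positivity)
          linarith

/-! ### the theorem -/

theorem dt_zero {f : V → V} (hf : Pool.Agent.N980.NU.SPV f)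
    (hd : ∀ x, Pool.Agent.N980.NU.dv f x = 0) (k : Fq) : dt k (fco f k) = 0 := by
  have h1 : H459R3.NS.fr (fun x => Pool.Agent.N980.NU.dv f x) k = 0 := by
    have : (fun x => Pool.Agent.N980.NU.dv f x) = fun _ => 0 := funext hd
    rw [this]
    unfold H459R3.NS.fr H459R3.NS.fc
    simp
  have h2 : H459R3.NS.fr (fun x => Pool.Agent.N980.NU.dv f x) k = ∑ j, fj k j * fco f k j := by
    have h3 := Pool.Agent.N980.NU.fr_sum Finset.univ
      (f := fun j => Pool.Agent.N980.NU.pd j fun y => f y j)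
      (fun j _ => Pool.Agent.N980.NU.sp_pd (hf.sp j) j) k
    have h4 : (fun x => Pool.Agent.N980.NU.dv f x) =
        fun x => ∑ j, Pool.Agent.N980.NU.pd j (fun y => f y j) x := rfl
    rw [h4, h3]
    refine Finset.sum_congr rfl fun j _ => ?_
    exact Pool.Agent.N980.NU.fr_pd' hf j j k
  rw [h2] at h1
  unfold dt
  unfold fj at h1
  have h5 : 2 * Real.pi * Complex.I * ∑ j, (k j : ℂ) * fco f k j = 0 := by
    rw [Finset.mul_sum, ← h1]
    exact Finset.sum_congr rfl fun j _ => by ring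
  have h6 : (2 * (Real.pi : ℂ) * Complex.I) ≠ 0 := by
    simp [Real.pi_ne_zero]
  exact (mul_eq_zero.1 h5).resolve_left h6

theorem sqrt_nn_sq (m : ℕ) (x : Fq → C3) : √(nn m x) ^ 2 = nn m x := Real.sq_sqrt (nn_nonneg m x)

theorem kop : S_KOP := by
  classical
  intro p δ K hp hK
  refine ⟨⟨?_, ?_, ?_, ?_, ?_, ?_⟩, ?_⟩
  · intro x x' y hx hx' hy
    unfold NK
    rw [Fd_add hx hx', hK.add_left _ _ _ (Fd_spv hx) (Fd_spv hx') (Fd_spv hy)]
    exact fco_add (hK.smooth _ _ (Fd_spv hx) (Fd_spv hy)).1.continuous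
      (hK.smooth _ _ (Fd_spv hx') (Fd_spv hy)).1.continuous
  · intro x y y' hx hy hy'
    unfold NK
    rw [Fd_add hy hy', hK.add_right _ _ _ (Fd_spv hx) (Fd_spv hy) (Fd_spv hy')]
    exact fco_add (hK.smooth _ _ (Fd_spv hx) (Fd_spv hy)).1.continuous
      (hK.smooth _ _ (Fd_spv hx) (Fd_spv hy')).1.continuous
  · intro r x y hx hy
    unfold NK
    rw [Fd_smul, hK.smul_left r _ _ (Fd_spv hx) (Fd_spv hy)]
    exact fco_smul r _
  · intro r x y hx hy
    unfold NK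
    rw [Fd_smul, hK.smul_right r _ _ (Fd_spv hx) (Fd_spv hy)]
    exact fco_smul r _
  · -- loc
    intro k
    set F : Finset Fq := {k, -k} with hF
    set A : ℝ := ∑ l ∈ F, wt 2 p l with hA
    have hA0 : 0 ≤ A := Finset.sum_nonneg fun l _ => Pool.Agent.N977.Q.wt_nonneg _ _ _
    set D : ℝ := |δ| * 5 ^ (|(0:ℝ)| + |(0:ℝ)| + |(2:ℝ)|) * A with hD
    have hD0 : 0 ≤ D := by rw [hD]; positivity
    refine ⟨D * 3, by positivity, fun x y hx hy => ?_⟩
    have h1 := test hK (s₁ := 0) (s₂ := 0) (s₃ := 2) (a₁ := 0) (a₂ := 0) (a₃ := p)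
      (by norm_num) le_rfl le_rfl hp (by ring) (F := F)
      (by
        intro l hl
        rw [hF, Finset.mem_insert, Finset.mem_singleton] at hl ⊢
        rcases hl with rfl | rfl
        · right; rfl
        · left; rw [neg_neg])
      (g := fun _ => 1) (fun _ => zero_le_one) (fun _ => rfl) hA0
      (by
        intro l hl
        rw [mul_one]
        refine pow_le_pow_left₀ (Pool.Agent.N977.Q.wt_nonneg _ _ _) ?_ 2
        exact Finset.single_le_sum (f := fun l => wt 2 p l)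
          (fun l _ => Pool.Agent.N977.Q.wt_nonneg _ _ _) hl) hx hy
    have h2 : ‖NK K x y k‖ ^ 2 ≤ ∑ l ∈ F, (1 : ℝ) * ∑ i, ‖NK K x y l i‖ ^ 2 := by
      refine (norm_sq_le _).trans ?_
      have := Finset.single_le_sum (f := fun l => (1 : ℝ) * ∑ i, ‖NK K x y l i‖ ^ 2) (s := F)
        (fun l _ => mul_nonneg zero_le_one (Finset.sum_nonneg fun _ _ => sq_nonneg _))
        (show k ∈ F by rw [hF]; exact Finset.mem_insert_self _ _)
      simpa using this
    have hw : ∀ l, wt 0 0 l ≤ 1 * pw l ^ 0 := fun l => by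
      rw [pow_zero, mul_one]; exact Pool.Agent.N977.Q.wt_zero_le_one l
    have h3 := Hn_Fd_le hx (s := 0) (a := 0) (C := 1) (m := 0) zero_le_one hw
    have h4 := Hn_Fd_le hy (s := 0) (a := 0) (C := 1) (m := 0) zero_le_one hw
    rw [one_pow, mul_one] at h3 h4
    have h5 : ‖NK K x y k‖ ^ 2 ≤ (D * 3 * √(nn 0 x) * √(nn 0 y)) ^ 2 := by
      refine h2.trans (h1.trans ?_)
      have h6 : Hn 0 0 (Fd x) ^ 2 * Hn 0 0 (Fd y) ^ 2 ≤ (3 * nn 0 x) * (3 * nn 0 y) :=
        mul_le_mul h3 h4 (sq_nonneg _) (mul_nonneg (by norm_num) (nn_nonneg 0 x))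
      calc D ^ 2 * (Hn 0 0 (Fd x) ^ 2 * Hn 0 0 (Fd y) ^ 2) ≤ D ^ 2 * ((3 * nn 0 x) * (3 * nn 0 y)) :=
            mul_le_mul_of_nonneg_left h6 (sq_nonneg D)
        _ = D ^ 2 * 9 * (√(nn 0 x) ^ 2 * √(nn 0 y) ^ 2) := by
            rw [sqrt_nn_sq, sqrt_nn_sq]; ring
        _ = (D * 3 * √(nn 0 x) * √(nn 0 y)) ^ 2 := by ring
    exact (sq_le_sq₀ (norm_nonneg _) (by positivity)).1 h5
  · -- est
    intro m
    set M : ℕ := 3 * (m + 1) with hM
    set Cp : ℝ := 3 * (p + 1) ^ p with hCp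
    have hCp0 : 0 ≤ Cp := by rw [hCp]; positivity
    set D : ℝ := |δ| * 5 ^ (|(M:ℝ)| + |(1:ℝ)| + |1 - (M:ℝ)|) * 4 ^ M with hD
    refine ⟨D ^ 2 * (9 * Cp ^ 2), by positivity, fun x y hx hy F => ?_⟩
    set F' : Finset Fq := F ∪ F.image (fun k => -k) with hF'
    have h1 := test hK (s₁ := M) (s₂ := 1) (s₃ := 1 - M) (a₁ := 0) (a₂ := p) (a₃ := 0)
      (by ring) le_rfl hp le_rfl (by ring) (F := F')
      (by
        intro l hl
        rw [hF', Finset.mem_union, Finset.mem_image] at hl ⊢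
        rcases hl with hl | ⟨a, ha, rfl⟩
        · right; exact ⟨l, hl, rfl⟩
        · left; rwa [neg_neg])
      (g := fun k => pw k ^ (2 * M) / (1 + nk k ^ 2))
      (fun k => by have := (pw_pos k).le; positivity)
      (fun k => by simp only [pw_neg, Pool.Agent.H356R3.NS.nk_neg]) (A := 4 ^ M) (by positivity)
      (fun k _ => wt_est M k) hx hy
    have h2 : ∑ k ∈ F, (pw k ^ M * ‖NK K x y k‖) ^ 2 / (1 + nk k ^ 2) ≤
        ∑ k ∈ F', pw k ^ (2 * M) / (1 + nk k ^ 2) * ∑ i, ‖NK K x y k i‖ ^ 2 := by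
      have hnn : ∀ k, 0 ≤ pw k ^ (2 * M) / (1 + nk k ^ 2) := fun k => by
        have := (pw_pos k).le; positivity
      refine le_trans (Finset.sum_le_sum fun k _ => ?_)
        (Finset.sum_le_sum_of_subset_of_nonneg (f := fun k => pw k ^ (2 * M) / (1 + nk k ^ 2) *
          ∑ i, ‖NK K x y k i‖ ^ 2) (Finset.subset_union_left (s₂ := F.image (fun k => -k)))
          fun k _ _ => mul_nonneg (hnn k) (Finset.sum_nonneg fun _ _ => sq_nonneg _))
      have h3 := mul_le_mul_of_nonneg_left (norm_sq_le (NK K x y k)) (hnn k)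
      refine le_trans (le_of_eq ?_) h3
      rw [mul_pow, ← pow_mul, mul_comm M 2]
      ring
    refine h2.trans (h1.trans ?_)
    have h3 := Hn_Fd_le hx (s := M) (a := 0) (C := 1) (m := M) zero_le_one (wt_nat M)
    have h4 := Hn_Fd_le hy (s := 1) (a := p) (C := Cp) (m := 3) hCp0 (wt_one p hp)
    rw [one_pow, mul_one] at h3
    have h5 : Hn M 0 (Fd x) ^ 2 * Hn 1 p (Fd y) ^ 2 ≤ (3 * nn M x) * (3 * Cp ^ 2 * nn 3 y) :=
      mul_le_mul h3 h4 (sq_nonneg _) (mul_nonneg (by norm_num) (nn_nonneg M x))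
    have h6 : 0 ≤ nn 3 x * nn M y := mul_nonneg (nn_nonneg 3 x) (nn_nonneg M y)
    calc D ^ 2 * (Hn M 0 (Fd x) ^ 2 * Hn 1 p (Fd y) ^ 2)
        ≤ D ^ 2 * ((3 * nn M x) * (3 * Cp ^ 2 * nn 3 y)) :=
          mul_le_mul_of_nonneg_left h5 (sq_nonneg D)
      _ = D ^ 2 * (9 * Cp ^ 2) * (nn M x * nn 3 y) := by ring
      _ ≤ D ^ 2 * (9 * Cp ^ 2) * (nn M x * nn 3 y + nn 3 x * nn M y) := by
          refine mul_le_mul_of_nonneg_left ?_ (by positivity)
          linarith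
  · intro x y hx hy
    have hs := hK.smooth _ _ (Fd_spv hx) (Fd_spv hy)
    refine ⟨Pool.Agent.N980.NU.fco_sym _, fun k => ?_⟩
    refine dt_zero ⟨hs.1, fun X j => hs.2 j X⟩ (fun X => ?_) k
    exact hK.divfree _ _ (Fd_spv hx) (Fd_spv hy) X

end Pool.Agent.N878.LE
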